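import Pool.Agent.H84.S2.Tg
import Pool.Agent.H14.SFG.CRT
import Pool.Agent.H33.SF.REM

/-!
# Row FND of the board s2l_modules: finitely many nodes
-/

set_option autoImplicit false

namespace Pool.Agent.H74.S2

open MvPolynomial SC
open Pool.Agent.H27.LV (ge deg poleOrder canDeg)
open Pool.Agent.H84.SM (cr dt dp)
open Pool.Agent.H3.SF (Itg Bb BB Hm eu grd hes Sfc Crd Cnn Crf Prm nv)
open Pool.Agent.H84.SF Pool.Agent.H3.S2 Pool.Agent.H84.S2

/-- a form vanishes on the line through its zero -/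
theorem fnd_line {k σ : Type} [Field k] [Fintype σ] (Q : MvPolynomial σ k) (d : ℕ)
    (hQ : Q.IsHomogeneous d) (s : σ → k) (hs : eval s Q = 0) (t : k) : eval (t • s) Q = 0 := by
  have h1 : eval (t • s) Q = t ^ d * eval s Q := by
    rw [eval_eq', eval_eq', Finset.mul_sum]
    refine Finset.sum_congr rfl fun a ha => ?_
    have h2 : ∑ i, a i = d := by
      have h3 := hQ (mem_support_iff.1 ha)
      rw [Finsupp.weight_apply, Finsupp.sum_fintype _ _ (fun _ => by simp)] at h3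
      simpa using h3
    have h4 : ∏ i, (t • s) i ^ a i = t ^ d * ∏ i, s i ^ a i := by
      rw [← h2, ← Finset.prod_pow_eq_pow_sum, ← Finset.prod_mul_distrib]
      exact Finset.prod_congr rfl fun i _ => by
        rw [Pi.smul_apply, smul_eq_mul, mul_pow]
    rw [h4]
    ring
  rw [h1, hs, mul_zero]

/-- the maximal ideal lies in `P` if the derivatives of `x y + ...` do -/
theorem fnd_max {k O : Type} [Field k] [CommRing O] [Algebra k O] (ε : O →ₐ[k] k) (x y : O)
    (dX dY : Derivation k O O) (hf : Frm ε x y dX dY) (G : O)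
    (hG : G - x * y ∈ Ideal.span {x, y} ^ 3) (P : Ideal O) (h1 : dX G ∈ P) (h2 : dY G ∈ P) :
    ∀ h, ε h = 0 → h ∈ P := by
  have hmem : ∀ h, h ∈ Ideal.span {x, y} ↔ ε h = 0 := by
    intro h
    rw [hf.max, Ideal.mem_span_pair]
    constructor
    · rintro ⟨a, b, hab⟩
      exact ⟨a, b, hab.symm⟩
    · rintro ⟨a, b, hab⟩
      exact ⟨a, b, hab.symm⟩
  have hsq : ∀ r ∈ Ideal.span {x, y} ^ 2, ∃ a b, ε a = 0 ∧ ε b = 0 ∧ r = a * x + b * y := by
    intro r hr
    rw [pow_two] at hr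
    refine Submodule.mul_induction_on hr ?_ ?_
    · intro m hm n hn
      obtain ⟨c, d, hcd⟩ := Ideal.mem_span_pair.1 hn
      refine ⟨m * c, m * d, ?_, ?_, ?_⟩
      · rw [map_mul, (hmem m).1 hm, zero_mul]
      · rw [map_mul, (hmem m).1 hm, zero_mul]
      · rw [← hcd]
        ring
    · rintro r r' ⟨a, b, ha, hb, rfl⟩ ⟨a', b', ha', hb', rfl⟩
      refine ⟨a + a', b + b', ?_, ?_, by ring⟩
      · rw [map_add, ha, ha', add_zero]
      · rw [map_add, hb, hb', add_zero]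
  obtain ⟨h3, h4, -⟩ := Pool.Agent.H33.SF.pf_REM k O ε x y dX dY hf 2 _ hG
  obtain ⟨a1, b1, ha1, hb1, e1⟩ := hsq _ h3
  obtain ⟨a2, b2, ha2, hb2, e2⟩ := hsq _ h4
  rw [map_sub, Derivation.leibniz, hf.xx, hf.xg, smul_eq_mul, smul_eq_mul, mul_zero, mul_one,
    zero_add] at e1
  rw [map_sub, Derivation.leibniz, hf.gx, hf.gg, smul_eq_mul, smul_eq_mul, mul_zero, mul_one,
    add_zero] at e2
  have p1 : a1 * x + (1 + b1) * y ∈ P := by
    have h5 : a1 * x + (1 + b1) * y = dX G := by linear_combination -e1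
    rw [h5]
    exact h1
  have p2 : (1 + a2) * x + b2 * y ∈ P := by
    have h5 : (1 + a2) * x + b2 * y = dY G := by linear_combination -e2
    rw [h5]
    exact h2
  obtain ⟨u, hu⟩ : ∃ u, u = a1 * b2 - (1 + b1) * (1 + a2) := ⟨_, rfl⟩
  have hunit : IsUnit u := by
    apply hf.unit
    rw [hu, map_sub, map_mul, map_mul, map_add, map_add, ha1, hb1, ha2, hb2, map_one]
    norm_num
  have px : x ∈ P := by
    have h5 : u * x ∈ P := by
      have h6 : u * x = b2 * (a1 * x + (1 + b1) * y) - (1 + b1) * ((1 + a2) * x + b2 * y) := by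
        rw [hu]
        ring
      rw [h6]
      exact P.sub_mem (P.mul_mem_left _ p1) (P.mul_mem_left _ p2)
    obtain ⟨w, hw⟩ := hunit.exists_left_inv
    have h7 : x = w * (u * x) := by
      rw [← mul_assoc, hw, one_mul]
    rw [h7]
    exact P.mul_mem_left _ h5
  have py : y ∈ P := by
    have h5 : u * y ∈ P := by
      have h6 : u * y = a1 * ((1 + a2) * x + b2 * y) - (1 + a2) * (a1 * x + (1 + b1) * y) := by
        rw [hu]
        ring
      rw [h6]
      exact P.sub_mem (P.mul_mem_left _ p2) (P.mul_mem_left _ p1)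
    obtain ⟨w, hw⟩ := hunit.exists_left_inv
    have h7 : y = w * (u * y) := by
      rw [← mul_assoc, hw, one_mul]
    rw [h7]
    exact P.mul_mem_left _ h5
  intro h hh
  obtain ⟨a, b, rfl⟩ := (hf.max h).1 hh
  exact P.add_mem (P.mul_mem_left _ px) (P.mul_mem_left _ py)

section

variable {k F σ : Type} [Field k] [Field F] [Algebra k F] [Fintype σ] [DecidableEq σ]

/-- derivatives of the equation at the nodes -/
theorem fnd_der (X : σ → F) (s : σ → k) (hcone : Cone X s) (m : ℕ)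
    (GP : MvPolynomial σ k) (hGP : GP.IsHomogeneous m) (hGs0 : eval s GP = 0)
    (L0 : MvPolynomial σ k) (hL : L0.IsHomogeneous 1) (hLs : eval s L0 ≠ 0)
    (ε : Os X s →ₐ[k] k) (heps : ∀ (h : Os X s) (d : ℕ) (a b : MvPolynomial σ k),
      Rep X (h : F) d a b → ε h * eval s b = eval s a) (hunit : ∀ h, ε h ≠ 0 → IsUnit h)
    (Gs : Os X s) (hGs : (Gs : F) * aeval X L0 ^ m = aeval X GP)
    (δ : Derivation k F F) (d : Derivation k (Os X s) (Os X s))
    (hd : ∀ h : Os X s, ((d h : Os X s) : F) = δ (h : F)) (hδ : δ (aeval X L0) = 0)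
    (Q : Ideal (MvPolynomial σ k))
    (hQ : ∀ f : MvPolynomial σ k, (∀ s' : σ → k, s' ≠ 0 → Cone X s' → eval s' GP = 0 →
      Nod X GP s' → ∀ μ : k, eval (μ • s') f = 0) → f ∈ Q)
    (P : Ideal (Os X s)) (hP : ∀ (f : MvPolynomial σ k) (d : ℕ) (h : Os X s), f ∈ Q →
      f.IsHomogeneous d → (h : F) * aeval X L0 ^ d = aeval X f → h ∈ P) : d Gs ∈ P := by
  have hL0 : aeval X L0 ≠ 0 := fun h => hLs (hcone.pt L0 h)
  -- the coordinates
  have hx : ∀ j, ∃ xj : Os X s, (xj : F) * aeval X L0 = X j := by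
    intro j
    refine ⟨⟨X j / aeval X L0, 1, MvPolynomial.X j, L0, ⟨isHomogeneous_X _ _, hL, ?_⟩, hLs⟩, ?_⟩
    · rw [div_mul_cancel₀ _ hL0, aeval_X]
    · change X j / aeval X L0 * aeval X L0 = X j
      rw [div_mul_cancel₀ _ hL0]
  choose xj hxj using hx
  have hrep : ∀ j, ∃ (e : ℕ) (a b : MvPolynomial σ k), Rep X ((d (xj j) : Os X s) : F) e a b ∧
      eval s b ≠ 0 := fun j => (d (xj j)).2
  choose e a b hab hbs using hrep
  obtain ⟨q, hq⟩ : ∃ q, q = ∏ j, b j := ⟨_, rfl⟩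
  obtain ⟨D, hD⟩ : ∃ D, D = ∑ j, e j := ⟨_, rfl⟩
  have hqh : q.IsHomogeneous D := by
    rw [hq, hD]
    exact IsHomogeneous.prod _ _ _ fun j _ => (hab j).2.1
  have hqs : eval s q ≠ 0 := by
    rw [hq, map_prod]
    exact Finset.prod_ne_zero_iff.2 fun j _ => hbs j
  obtain ⟨hh, hhh⟩ : ∃ hh : σ → MvPolynomial σ k, ∀ j,
      hh j = L0 * (a j * ∏ i ∈ Finset.univ.erase j, b i) := ⟨_, fun _ => rfl⟩
  have hhom : ∀ j, (hh j).IsHomogeneous (1 + D) := by
    intro j
    rw [hhh, hD, ← Finset.add_sum_erase Finset.univ e (Finset.mem_univ j)]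
    exact hL.mul ((hab j).1.mul (IsHomogeneous.prod _ _ _ fun i _ => (hab i).2.1))
  have hqj : ∀ j, aeval X q * δ (X j) = aeval X (hh j) := by
    intro j
    have h1 : δ (X j) = aeval X L0 * ((d (xj j) : Os X s) : F) := by
      rw [← hxj j, Derivation.leibniz, hδ, smul_zero, zero_add, smul_eq_mul, hd]
    have h2 := (hab j).2.2
    rw [h1, hq, hhh, ← Finset.mul_prod_erase Finset.univ b (Finset.mem_univ j), map_mul, map_mul,
      map_mul, ← h2]
    ring
  have hchain : ∀ f : MvPolynomial σ k,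
      aeval X q * δ (aeval X f) = aeval X (∑ j, pderiv j f * hh j) := by
    intro f
    rw [Pool.Agent.H14.SFG.deriv_aeval, Finset.mul_sum, map_sum]
    refine Finset.sum_congr rfl fun j _ => ?_
    rw [map_mul, ← hqj j]
    ring
  obtain ⟨A, hA⟩ : ∃ A, A = ∑ j, pderiv j GP * hh j := ⟨_, rfl⟩
  have hAh : A.IsHomogeneous (m + D) := by
    by_cases hm : m = 0
    · have h1 : GP = C (coeff 0 GP) := by
        rw [hm] at hGP
        exact (totalDegree_eq_zero_iff_eq_C (p := GP)).1 (by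
          have := hGP.totalDegree_le
          omega)
      have h2 : GP = 0 := by
        rw [h1] at hGs0 ⊢
        rw [eval_C] at hGs0
        rw [hGs0, C_0]
      have h3 : A = 0 := by
        rw [hA, h2]
        simp
      rw [h3]
      exact isHomogeneous_zero _ _ _
    · rw [hA]
      refine IsHomogeneous.sum _ _ _ fun j _ => ?_
      have h1 := (hGP.pderiv (i := j)).mul (hhom j)
      have h2 : m - 1 + (1 + D) = m + D := by omega
      rwa [h2] at h1
  have hAQ : A ∈ Q := by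
    apply hQ
    intro s' hs' hcone' hG' hnod μ
    apply fnd_line A _ hAh
    obtain ⟨f', hf1, hf2, -⟩ := hnod.ex
    have h1 : aeval X (∑ j, pderiv j f' * hh j) = 0 := by
      rw [← hchain, hf1, map_zero, mul_zero]
    have h2 := hcone'.pt _ h1
    rw [map_sum] at h2
    rw [hA, map_sum, ← h2]
    refine Finset.sum_congr rfl fun j _ => ?_
    have h3 := hf2 j
    rw [map_sub, map_sub, sub_eq_zero] at h3
    rw [map_mul, map_mul, h3]
  -- the unit `q / L0 ^ D`
  have hLD : (L0 ^ D).IsHomogeneous D := by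
    have h1 := hL.pow D
    rwa [one_mul] at h1
  obtain ⟨qs, hqs'⟩ : ∃ qs : Os X s, (qs : F) * aeval X L0 ^ D = aeval X q := by
    refine ⟨⟨aeval X q / aeval X L0 ^ D, D, q, L0 ^ D, ⟨hqh, hLD, ?_⟩, ?_⟩, ?_⟩
    · rw [map_pow, div_mul_cancel₀ _ (pow_ne_zero _ hL0)]
    · rw [map_pow]
      exact pow_ne_zero _ hLs
    · change aeval X q / aeval X L0 ^ D * aeval X L0 ^ D = aeval X q
      rw [div_mul_cancel₀ _ (pow_ne_zero _ hL0)]
  have hqu : IsUnit qs := by
    apply hunit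
    intro h0
    have h1 := heps qs D q (L0 ^ D) ⟨hqh, hLD, by rw [map_pow]; exact hqs'⟩
    rw [h0, zero_mul] at h1
    exact hqs h1.symm
  have hmul : qs * d Gs ∈ P := by
    refine hP A (m + D) _ hAQ hAh ?_
    rw [hA, ← hchain, ← hGs, Derivation.leibniz, Derivation.leibniz_pow, hδ]
    change (qs : F) * ((d Gs : Os X s) : F) * aeval X L0 ^ (m + D) = _
    rw [hd, pow_add, ← hqs']
    simp only [smul_zero, zero_add, smul_eq_mul]
    ring
  obtain ⟨w, hw⟩ := hqu.exists_left_inv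
  have h7 : d Gs = w * (qs * d Gs) := by
    rw [← mul_assoc, hw, one_mul]
  rw [h7]
  exact P.mul_mem_left _ hmul

end

theorem pf_FND (hNFR : T_NFR) (hMPR : T_MPR) (hMPL : T_MPL) : T_FND := by
  intro k F σ _ _ _ _ _ _ _ X u dd J j0 hS m GP hGP
  obtain ⟨Q, hQ⟩ : ∃ Q : Ideal (MvPolynomial σ k), ∀ f, f ∈ Q ↔ ∀ s' : σ → k, s' ≠ 0 →
      Cone X s' → eval s' GP = 0 → Nod X GP s' → ∀ μ : k, eval (μ • s') f = 0 := by
    refine ⟨⨅ s' : {s' : σ → k // s' ≠ 0 ∧ Cone X s' ∧ eval s' GP = 0 ∧ Nod X GP s'},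
      Lns s'.1, fun f => ?_⟩
    rw [Submodule.mem_iInf]
    constructor
    · intro h s' h1 h2 h3 h4
      exact h ⟨s', h1, h2, h3, h4⟩
    · intro h s'
      exact h s'.1 s'.2.1 s'.2.2.1 s'.2.2.2.1 s'.2.2.2.2
  obtain ⟨T, hT⟩ := hMPR k σ Q
  refine ⟨T, ?_⟩
  intro s hs0 hcone hsG hnod
  apply hT s hs0
  obtain ⟨-, L0, L1, L2, cX, cY, ε, x1, y1, Gs, dX, dY, -, hfr, hGs, hG3⟩ :=
    hNFR k F σ X u dd J j0 hS m GP hGP s hs0 hcone hsG hnod
  refine hMPL k F σ X s hs0 hcone ε hfr.eps L0 hfr.l0 hfr.v0 Q ?_ ?_ ?_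
  · intro f hf
    rw [hQ]
    intro s' h1 h2 h3 h4 μ
    rw [← sum_homogeneousComponent f, map_sum]
    refine Finset.sum_eq_zero fun d _ => ?_
    exact fnd_line _ d (homogeneousComponent_isHomogeneous d f) s' (h2.pt _ (h2.hom f d hf)) μ
  · intro f hf μ
    exact (hQ f).1 hf s hs0 hcone hsG hnod μ
  · intro P _ hP
    have hx := fnd_der X s hcone m GP hGP hsG L0 hfr.l0 hfr.v0 ε hfr.eps hfr.frm.unit Gs hGs
      (∑ l, cX l • dd l) dX hfr.dX hfr.der.x0 Q (fun f => (hQ f).2) P hP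
    have hy := fnd_der X s hcone m GP hGP hsG L0 hfr.l0 hfr.v0 ε hfr.eps hfr.frm.unit Gs hGs
      (∑ l, cY l • dd l) dY hfr.dG hfr.der.g0 Q (fun f => (hQ f).2) P hP
    exact fnd_max ε x1 y1 dX dY hfr.frm Gs hG3 P hx hy

end Pool.Agent.H74.S2
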